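import Mathlib
import Pool.Agent.Lib_helper59.SH.Main
import Pool.Agent.Lib_helper59.SH.ChiMin

set_option autoImplicit false

namespace Pool.Agent.Results.MP_b73599_gt.FiniteSimpleTypes

open Pool.SH

/-- For every finite group `G` the minimal Euler characteristic `χ_min(G)` exists, and for every
integer `n` (in particular for `n = χ_min(G)`) the presentation complexes `K_P` with
`π₁(K_P) ≅ G` and `χ(K_P) = n` can be coloured with finitely many colours such that any two
complexes of the same colour are simple-homotopy equivalent. -/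
theorem result (G : Type) [Group G] [Finite G] :
    IsLeast {n : ℤ | ∃ P : Pres, Nonempty (P.Pi ≃* G) ∧ P.chi = n} (chiMin G) ∧
    ∀ n : ℤ, ∃ (k : ℕ) (c : {P : Pres // Nonempty (P.Pi ≃* G) ∧ P.chi = n} → Fin k),
      ∀ P Q, c P = c Q → SimpleEquiv P.1 Q.1 :=
  ⟨isLeast_chiMin G, finite_classes G⟩

end Pool.Agent.Results.MP_b73599_gt.FiniteSimpleTypes
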